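import Pool.Agent.Lib.MP_696deb_nt.CL.W

/-! The root number is equidistributed. -/

set_option autoImplicit false

open scoped Classical
open Filter Topology

namespace Pool.Agent.Lib.MP_696deb_nt.CT

open Finset

theorem half_card (Q : ℕ → Prop) [DecidablePred Q] (X : ℕ) :
    Set.ncard {n : ℕ | 1 ≤ n ∧ n ≤ X ∧ Q n} = ((Icc 1 X).filter Q).card := by
  rw [← Set.ncard_coe_finset]
  congr 1
  ext n
  simp [and_assoc]

/-- The number of prime factors that are two modulo three, with multiplicity. -/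
noncomputable def half_s (n : ℕ) : ℕ := n.factorization.sum fun p k => if p % 3 = 2 then k else 0

theorem half_chi (n : ℕ) : n ≠ 0 →
    ((n / 3 ^ n.factorization 3 : ℕ) : ZMod 3) = (-1) ^ half_s n := by
  induction n using Nat.recOnMul with
  | zero => simp
  | one => simp [half_s]
  | prime p hp =>
    intro _
    rw [half_s, hp.factorization, Finsupp.sum_single_index (by simp)]
    by_cases h3 : p = 3
    · subst h3
      simp
    · rw [Finsupp.single_eq_of_ne (Ne.symm h3), pow_zero, Nat.div_one]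
      have h0 : p % 3 ≠ 0 := fun h =>
        h3 ((Nat.prime_dvd_prime_iff_eq Nat.prime_three hp).1 (Nat.dvd_of_mod_eq_zero h)).symm
      rw [← ZMod.natCast_mod p 3]
      split_ifs with h
      · rw [h]
        decide
      · have : p % 3 = 1 := by omega
        rw [this]
        simp
  | mul a b ha hb =>
    intro h
    have a0 : a ≠ 0 := left_ne_zero_of_mul h
    have b0 : b ≠ 0 := right_ne_zero_of_mul h
    have e : half_s (a * b) = half_s a + half_s b := by
      simp only [half_s]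
      rw [Nat.factorization_mul a0 b0, Finsupp.sum_add_index' (by simp)]
      intro p k l
      split_ifs <;> simp
    rw [Nat.ordCompl_mul, Nat.cast_mul, ha a0, hb b0, e, pow_add]

/-- No large square divides `n`. -/
def half_G (P n : ℕ) : Prop := ∀ d : ℕ, d ^ 2 ∣ n → d ≤ P

theorem half_lt {P n p : ℕ} (hn : n ≠ 0) (hp : p.Prime) (g : half_G P n) :
    n.factorization p < 2 * P := by
  by_contra h
  have h1 : p ^ (2 * P) ∣ n := (hp.pow_dvd_iff_le_factorization hn).2 (not_lt.1 h)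
  have h2 := g (p ^ P) (by rwa [← pow_mul, mul_comm])
  exact absurd (Nat.lt_pow_self hp.one_lt) (not_lt.2 h2)

theorem half_le {P n p : ℕ} (hn : n ≠ 0) (hp : p.Prime) (g : half_G P n) (h : P < p) :
    n.factorization p ≤ 1 := by
  by_contra h1
  have h2 : p ^ 2 ∣ n := (hp.pow_dvd_iff_le_factorization hn).2 (by omega)
  exact absurd (g p h2) (not_le.2 h)

theorem half_eq {k n m p : ℕ} (hn : n ≠ 0) (hm : m ≠ 0) (hp : p.Prime)
    (h1 : n.factorization p < k) (h2 : m.factorization p < k) (h : p ^ k ∣ n + m) :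
    n.factorization p = m.factorization p := by
  apply le_antisymm
  · rw [← hp.pow_dvd_iff_le_factorization hm]
    exact (Nat.dvd_add_right (Nat.ordProj_dvd n p)).1 ((pow_dvd_pow p h1.le).trans h)
  · rw [← hp.pow_dvd_iff_le_factorization hn]
    exact (Nat.dvd_add_left (Nat.ordProj_dvd m p)).1 ((pow_dvd_pow p h2.le).trans h)

theorem half_par {P n : ℕ} (hn : n ≠ 0) (g : half_G P n) :
    (((n.primeFactors.filter fun p => p % 3 = 2 ∧ n.factorization p % 3 ≠ 0).card : ℕ) : ZMod 2) =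
      half_s n + ∑ p ∈ (range (P + 1)).filter Nat.Prime, if p % 3 = 2 then
        (((if n.factorization p % 3 ≠ 0 then 1 else 0) + n.factorization p : ℕ) : ZMod 2)
        else 0 := by
  set t : ℕ → ZMod 2 := fun p => if p % 3 = 2 then
    (((if n.factorization p % 3 ≠ 0 then 1 else 0) + n.factorization p : ℕ) : ZMod 2) else 0
    with ht
  have e1 : ∑ p ∈ (range (P + 1)).filter Nat.Prime, t p = ∑ p ∈ n.primeFactors, t p := by
    rw [← sum_subset (s₁ := ((range (P + 1)).filter Nat.Prime) ∩ n.primeFactors)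
        inter_subset_left, ← sum_subset
        (s₁ := ((range (P + 1)).filter Nat.Prime) ∩ n.primeFactors) inter_subset_right]
    · intro p h1 h2
      have hp := Nat.prime_of_mem_primeFactors h1
      have h3 : P < p := by
        by_contra h
        exact h2 (mem_inter.2 ⟨mem_filter.2 ⟨mem_range.2 (by omega), hp⟩, h1⟩)
      have h4 := half_le hn hp g h3
      simp only [ht]
      split_ifs with a b
      · have : n.factorization p = 1 := by omega
        rw [this]
        decide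
      · have : n.factorization p = 0 := by omega
        rw [this]
        simp
      · rfl
    · intro p h1 h2
      have : n.factorization p = 0 := by
        rw [← Finsupp.notMem_support_iff, Nat.support_factorization]
        exact fun h => h2 (mem_inter.2 ⟨h1, h⟩)
      simp [ht, this]
  rw [e1, half_s, Finsupp.sum, Nat.support_factorization, card_filter, Nat.cast_sum, Nat.cast_sum,
    ← sum_add_distrib]
  refine sum_congr rfl fun p _ => ?_
  simp only [ht]
  by_cases a : p % 3 = 2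
  · simp only [a, true_and, if_true, Nat.cast_add]
    rw [add_comm, add_assoc, CharTwo.add_self_eq_zero, add_zero]
  · simp [a]

theorem half_flip {P n m : ℕ} (hP : 3 ≤ P) (hn : n ≠ 0) (hm : m ≠ 0) (g : half_G P n)
    (g1 : half_G P m) (h : 9 * P.factorial ^ (2 * P) ∣ n + m) : CL.Wp n ↔ ¬ CL.Wp m := by
  have hv : ∀ p, p.Prime → p ≤ P → n.factorization p = m.factorization p := fun p hp hl =>
    half_eq hn hm hp (half_lt hn hp g) (half_lt hm hp g1)
      (((pow_dvd_pow_of_dvd (Nat.dvd_factorial hp.pos hl) _).mul_left 9).trans h)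
  have h3 := hv 3 Nat.prime_three hP
  have a1 := half_par hn g
  have a2 := half_par hm g1
  have e : (∑ p ∈ (range (P + 1)).filter Nat.Prime, if p % 3 = 2 then
        (((if n.factorization p % 3 ≠ 0 then 1 else 0) + n.factorization p : ℕ) : ZMod 2)
        else 0) = ∑ p ∈ (range (P + 1)).filter Nat.Prime, if p % 3 = 2 then
        (((if m.factorization p % 3 ≠ 0 then 1 else 0) + m.factorization p : ℕ) : ZMod 2)
        else 0 := by
    refine sum_congr rfl fun p hp => ?_
    rw [mem_filter, mem_range] at hp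
    rw [hv p hp.2 (by omega)]
  have c1 := half_chi n hn
  have c2 := half_chi m hm
  have d1 := Nat.ordProj_mul_ordCompl_eq_self n 3
  have d2 := Nat.ordProj_mul_ordCompl_eq_self m 3
  have h9 : 9 ∣ n / 3 ^ n.factorization 3 + m / 3 ^ m.factorization 3 := by
    refine Nat.dvd_of_mul_dvd_mul_left (k := 3 ^ n.factorization 3) (by positivity) ?_
    rw [mul_add, d1, h3, d2, mul_comm]
    refine (mul_dvd_mul_left 9 ?_).trans h
    exact (pow_dvd_pow 3 (half_lt hm Nat.prime_three g1).le).trans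
      (pow_dvd_pow_of_dvd (Nat.dvd_factorial (by norm_num) hP) _)
  have h0 : ((n / 3 ^ n.factorization 3 + m / 3 ^ m.factorization 3 : ℕ) : ZMod 3) = 0 :=
    (ZMod.natCast_eq_zero_iff _ _).2 ((by norm_num : 3 ∣ 9).trans h9)
  rw [Nat.cast_add, c1, c2] at h0
  have hs : (half_s n : ZMod 2) = half_s m + 1 := by
    rcases Nat.even_or_odd (half_s n) with x | x <;> rcases Nat.even_or_odd (half_s m) with y | y
    · rw [x.neg_one_pow, y.neg_one_pow] at h0
      exact absurd h0 (by decide)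
    · rw [ZMod.natCast_eq_zero_iff_even.2 x, ZMod.natCast_eq_one_iff_odd.2 y]
      decide
    · rw [ZMod.natCast_eq_zero_iff_even.2 y, ZMod.natCast_eq_one_iff_odd.2 x]
      decide
    · rw [x.neg_one_pow, y.neg_one_pow] at h0
      exact absurd h0 (by decide)
  unfold CL.Wp
  rw [← ZMod.natCast_eq_zero_iff_even, ← ZMod.natCast_eq_zero_iff_even, a1, a2, e, hs, ← h3]
  have k9 : (n / 3 ^ n.factorization 3 % 9 = 1 ∨ n / 3 ^ n.factorization 3 % 9 = 8) ↔
      (m / 3 ^ n.factorization 3 % 9 = 1 ∨ m / 3 ^ n.factorization 3 % 9 = 8) := by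
    rw [← h3] at h9
    omega
  rw [k9, add_right_comm]
  generalize (half_s m : ZMod 2) + _ = z
  have : z + 1 = 0 ↔ ¬ z = 0 := by
    revert z
    decide
  rw [this]
  tauto

theorem half_bad (P N : ℕ) :
    (((Icc 1 N).filter fun n => ¬ half_G P n).card : ℝ) ≤ N * (2 / (P + 1)) := by
  have h1 : ((Icc 1 N).filter fun n => ¬ half_G P n) ⊆
      (Ioo P (N + 1)).biUnion fun d => (Ioc 0 N).filter fun n => d ^ 2 ∣ n := by
    intro n hn
    simp only [half_G, mem_filter, mem_Icc, not_forall, not_le] at hn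
    obtain ⟨⟨a, b⟩, d, h1, h2⟩ := hn
    have h3 : d ≤ n := Nat.le_of_dvd a ((dvd_pow_self d two_ne_zero).trans h1)
    exact mem_biUnion.2 ⟨d, mem_Ioo.2 ⟨h2, by omega⟩, mem_filter.2 ⟨mem_Ioc.2 ⟨a, b⟩, h1⟩⟩
  have h2 := (card_le_card h1).trans card_biUnion_le
  refine (Nat.cast_le.2 h2).trans ?_
  refine le_trans ?_ (mul_le_mul_of_nonneg_left (sum_Ioo_inv_sq_le (α := ℝ) P (N + 1))
    (Nat.cast_nonneg N))
  rw [Nat.cast_sum, mul_sum]
  refine sum_le_sum fun d _ => ?_
  rw [Nat.Ioc_filter_dvd_card_eq_div]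
  refine Nat.cast_div_le.trans (le_of_eq ?_)
  rw [div_eq_mul_inv, Nat.cast_pow]

theorem half_cmp {P M : ℕ} (hM : M ≠ 0) {A B : ℕ → Prop} [DecidablePred A] [DecidablePred B]
    (h : ∀ n m, n ≠ 0 → m ≠ 0 → half_G P n → half_G P m → M ∣ n + m → A n → B m) (X : ℕ) :
    (((Icc 1 X).filter A).card : ℝ) ≤
      ((Icc 1 X).filter B).card + M + 2 * ((X + M) * (2 / (P + 1))) := by
  obtain ⟨N, hN, h1, h2⟩ : ∃ N, M ∣ N ∧ X < N ∧ N ≤ X + M :=
    ⟨M * (X / M + 1), dvd_mul_right _ _, Nat.lt_mul_div_succ X (Nat.pos_of_ne_zero hM), by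
      rw [mul_add, mul_one]
      exact Nat.add_le_add_right (Nat.mul_div_le X M) M⟩
  set D := (Icc 1 N).filter fun n => ¬ half_G P n with hD
  have s1 : (Icc 1 X).filter A ⊆
      D ∪ ((((Icc 1 X).filter B ∪ Ioc X N) ∪ D).image fun m => N - m) := by
    intro n hn
    simp only [mem_filter, mem_Icc] at hn
    obtain ⟨⟨a, b⟩, c⟩ := hn
    by_cases g : half_G P n
    · refine mem_union_right _ (mem_image.2 ⟨N - n, ?_, by omega⟩)
      by_cases g1 : half_G P (N - n)
      · refine mem_union_left _ ?_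
        by_cases k : N - n ≤ X
        · refine mem_union_left _ (mem_filter.2 ⟨mem_Icc.2 ⟨by omega, k⟩, ?_⟩)
          refine h n _ (by omega) (by omega) g g1 ?_ c
          rwa [Nat.add_sub_cancel' (by omega)]
        · exact mem_union_right _ (mem_Ioc.2 ⟨by omega, by omega⟩)
      · exact mem_union_right _ (mem_filter.2 ⟨mem_Icc.2 ⟨by omega, by omega⟩, g1⟩)
    · exact mem_union_left _ (mem_filter.2 ⟨mem_Icc.2 ⟨a, by omega⟩, g⟩)
  have s2 : ((Icc 1 X).filter A).card ≤ D.card + (((Icc 1 X).filter B).card + M + D.card) := by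
    refine (card_le_card s1).trans ((card_union_le _ _).trans (Nat.add_le_add_left ?_ _))
    refine card_image_le.trans ((card_union_le _ _).trans (Nat.add_le_add_right ?_ _))
    refine (card_union_le _ _).trans (Nat.add_le_add_left ?_ _)
    rw [Nat.card_Ioc]
    omega
  have s3 : (D.card : ℝ) ≤ (X + M) * (2 / (P + 1)) :=
    (half_bad P N).trans (mul_le_mul_of_nonneg_right (by exact_mod_cast h2) (by positivity))
  have s4 : (((Icc 1 X).filter A).card : ℝ) ≤
      D.card + (((Icc 1 X).filter B).card + M + D.card) := by exact_mod_cast s2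
  linarith

theorem half_sum (A : ℕ → Prop) (X : ℕ) :
    (((Icc 1 X).filter A).card : ℝ) + ((Icc 1 X).filter fun n => ¬ A n).card = X := by
  rw [← Nat.cast_add, card_filter_add_card_filter_not, Nat.card_Icc, Nat.add_sub_cancel]

theorem half_est {ε : ℝ} (hε : 0 < ε) : ∃ X0 : ℕ, ∀ X ≥ X0,
    |(((Icc 1 X).filter CL.Wp).card : ℝ) - X / 2| ≤ ε * X := by
  obtain ⟨P, hP, hP1⟩ : ∃ P : ℕ, 3 ≤ P ∧ 2 / ((P : ℝ) + 1) ≤ ε / 4 := by
    obtain ⟨P, h⟩ := exists_nat_ge (8 / ε)
    refine ⟨P + 3, by omega, ?_⟩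
    rw [div_le_iff₀ hε] at h
    rw [div_le_iff₀ (by positivity)]
    push_cast
    nlinarith
  set M := 9 * P.factorial ^ (2 * P) with hM
  have M0 : M ≠ 0 := by positivity
  obtain ⟨X1, h1⟩ := exists_nat_ge (M / ε)
  refine ⟨max X1 M, fun X hX => ?_⟩
  have x1 : (X1 : ℝ) ≤ X := by exact_mod_cast (le_max_left _ _).trans hX
  have x2 : (M : ℝ) ≤ X := by exact_mod_cast (le_max_right _ _).trans hX
  have x3 : (M : ℝ) ≤ ε * X := by
    rw [mul_comm]
    exact (div_le_iff₀ hε).1 (h1.trans x1)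
  have a := half_cmp (P := P) M0 (A := CL.Wp) (B := fun n => ¬ CL.Wp n)
    (fun n m a b c d e f => (half_flip hP a b c d e).1 f) X
  have b := half_cmp (P := P) M0 (A := fun n => ¬ CL.Wp n) (B := CL.Wp)
    (fun n m a b c d e f => not_not.1 fun k => f ((half_flip hP a b c d e).2 k)) X
  have c := half_sum CL.Wp X
  have d : ((X : ℝ) + M) * (2 / (P + 1)) ≤ (X + X) * (ε / 4) :=
    mul_le_mul (by linarith) hP1 (by positivity) (by positivity)
  rw [abs_le]
  constructor <;> nlinarith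

theorem half_lim {c : ℕ → ℝ}
    (h : ∀ ε : ℝ, 0 < ε → ∃ X0 : ℕ, ∀ X ≥ X0, |c X - X / 2| ≤ ε * X) :
    Tendsto (fun X : ℕ => c X / X) atTop (𝓝 (1 / 2)) := by
  rw [Metric.tendsto_atTop]
  intro ε hε
  obtain ⟨X0, h0⟩ := h (ε / 2) (by positivity)
  refine ⟨max X0 1, fun X hX => ?_⟩
  have x1 : (0 : ℝ) < X := by exact_mod_cast (le_max_right _ _).trans hX
  have a := h0 X ((le_max_left _ _).trans hX)
  have e : c X / X - 1 / 2 = (c X - X / 2) / X := by field_simp
  rw [Real.dist_eq, e, abs_div, abs_of_pos x1, div_lt_iff₀ x1]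
  nlinarith

theorem tend_wp : Tendsto (fun X : ℕ => (Set.ncard {n : ℕ | 1 ≤ n ∧ n ≤ X ∧ CL.Wp n} : ℝ) / X)
    atTop (𝓝 (1 / 2)) := by
  refine half_lim fun ε hε => ?_
  simp only [half_card]
  exact half_est hε

theorem cubes {ε : ℝ} (hε : 0 < ε) : ∃ X0 : ℕ, ∀ X ≥ X0,
    (Set.ncard {n : ℕ | 1 ≤ n ∧ n ≤ X ∧ ∃ m : ℕ, n = m ^ 3 ∨ n = 2 * m ^ 3} : ℝ) ≤ ε * X := by
  obtain ⟨K, hK⟩ := exists_nat_ge (2 / ε)
  refine ⟨K ^ 2, fun X hX => ?_⟩
  rw [half_card]
  have s1 : ((Icc 1 X).filter fun n => ∃ m : ℕ, n = m ^ 3 ∨ n = 2 * m ^ 3) ⊆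
      ((Icc 1 X.sqrt).image fun m => m ^ 3) ∪ (Icc 1 X.sqrt).image fun m => 2 * m ^ 3 := by
    intro n hn
    simp only [mem_filter, mem_Icc] at hn
    obtain ⟨⟨a, b⟩, m, c⟩ := hn
    have m1 : 1 ≤ m := by
      rcases Nat.eq_zero_or_pos m with rfl | h
      · omega
      · exact h
    have m2 : m ^ 2 ≤ m ^ 3 := Nat.pow_le_pow_right m1 (by norm_num)
    have m3 : m ∈ Icc 1 X.sqrt := mem_Icc.2 ⟨m1, Nat.le_sqrt'.2 (by omega)⟩
    rcases c with c | c
    · exact mem_union_left _ (mem_image.2 ⟨m, m3, c.symm⟩)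
    · exact mem_union_right _ (mem_image.2 ⟨m, m3, c.symm⟩)
  have s2 := (card_le_card s1).trans ((card_union_le _ _).trans
    (Nat.add_le_add card_image_le card_image_le))
  rw [Nat.card_Icc, Nat.add_sub_cancel] at s2
  refine (Nat.cast_le.2 s2).trans ?_
  have k1 : (K : ℝ) ≤ X.sqrt := by exact_mod_cast Nat.le_sqrt'.2 hX
  have k2 : (X.sqrt : ℝ) ^ 2 ≤ X := by exact_mod_cast Nat.sqrt_le' X
  have k3 : 2 ≤ (X.sqrt : ℝ) * ε := (div_le_iff₀ hε).1 (hK.trans k1)
  have k4 : (0 : ℝ) ≤ X.sqrt := Nat.cast_nonneg _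
  push_cast
  nlinarith

theorem half {P : ℕ → ℕ → Prop} (hP : ∀ r n, P r n → (r = 0 ↔ CL.Wp n))
    (h : ∀ ε : ℝ, 0 < ε → ∃ X0 : ℕ, ∀ X ≥ X0,
      (Set.ncard {n : ℕ | 1 ≤ n ∧ n ≤ X ∧ ¬ P (if CL.Wp n then 0 else 1) n} : ℝ) ≤ ε * X)
    {r : ℕ} (hr : r ≤ 1) :
    Tendsto (fun X : ℕ => (Set.ncard {n : ℕ | 1 ≤ n ∧ n ≤ X ∧ P r n} : ℝ) / X)
      atTop (𝓝 (1 / 2)) := by
  refine half_lim fun ε hε => ?_
  obtain ⟨X0, h0⟩ := h (ε / 2) (by positivity)
  obtain ⟨X1, h1⟩ := half_est (ε := ε / 2) (by positivity)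
  refine ⟨max X0 X1, fun X hX => ?_⟩
  have a := h0 X ((le_max_left _ _).trans hX)
  have b := h1 X ((le_max_right _ _).trans hX)
  rw [half_card] at a ⊢
  have c : |(((Icc 1 X).filter fun n => (r = 0 ↔ CL.Wp n)).card : ℝ) - X / 2| ≤ ε / 2 * X := by
    by_cases k : r = 0
    · simpa only [k, true_iff] using b
    · have := half_sum CL.Wp X
      simp only [k, false_iff]
      rw [abs_le] at b ⊢
      constructor <;> linarith [b.1, b.2]
  have s1 : ((Icc 1 X).filter (P r)).card ≤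
      ((Icc 1 X).filter fun n => (r = 0 ↔ CL.Wp n)).card :=
    card_le_card fun n hn => mem_filter.2 ⟨(mem_filter.1 hn).1, hP r n (mem_filter.1 hn).2⟩
  have s2 : ((Icc 1 X).filter fun n => (r = 0 ↔ CL.Wp n)).card ≤
      ((Icc 1 X).filter (P r)).card +
        ((Icc 1 X).filter fun n => ¬ P (if CL.Wp n then 0 else 1) n).card := by
    refine (card_le_card fun n hn => ?_).trans (card_union_le _ _)
    obtain ⟨k1, k2⟩ := mem_filter.1 hn
    have e : (if CL.Wp n then 0 else 1) = r := by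
      split_ifs with k
      · exact (k2.2 k).symm
      · have : r ≠ 0 := fun x => k (k2.1 x)
        omega
    by_cases k : P r n
    · exact mem_union_left _ (mem_filter.2 ⟨k1, k⟩)
    · exact mem_union_right _ (mem_filter.2 ⟨k1, by rwa [e]⟩)
  have s3 : (((Icc 1 X).filter (P r)).card : ℝ) ≤
      ((Icc 1 X).filter fun n => (r = 0 ↔ CL.Wp n)).card := by exact_mod_cast s1
  have s4 : (((Icc 1 X).filter fun n => (r = 0 ↔ CL.Wp n)).card : ℝ) ≤
      ((Icc 1 X).filter (P r)).card +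
        ((Icc 1 X).filter fun n => ¬ P (if CL.Wp n then 0 else 1) n).card := by exact_mod_cast s2
  rw [abs_le] at c ⊢
  constructor <;> linarith [c.1, c.2]

end Pool.Agent.Lib.MP_696deb_nt.CT
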