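import Pool.Agent.Lib.MP_696deb_nt.CK.Stmt

/-! Sums of two rational cubes give infinitely many points. -/

set_option autoImplicit false

namespace Pool.Agent.Lib.MP_696deb_nt.CT

theorem sum_cop (r : ℚ) : IsCoprime r.num (r.den : ℤ) :=
  Int.isCoprime_iff_gcd_eq_one.2 r.reduced

theorem sum_cube {n a : ℕ} (ha : a = 1 ∨ a = 2) {q : ℚ} (h : a * q ^ 3 = n) :
    ∃ m : ℕ, n = a * m ^ 3 := by
  have d : (q.den : ℚ) ≠ 0 := Nat.cast_ne_zero.2 q.den_nz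
  have e : (a : ℤ) * q.num ^ 3 = q.den ^ 3 * n := by
    have : (a : ℚ) * q.num ^ 3 = q.den ^ 3 * n := by
      rw [← h, ← Rat.mul_den_eq_num]
      ring
    exact_mod_cast this
  have k : (q.den : ℤ) ^ 3 ∣ a := (sum_cop q).symm.pow.dvd_of_dvd_mul_right ⟨_, e⟩
  have l : q.den ^ 3 ≤ a := Nat.le_of_dvd (by omega) (by exact_mod_cast k)
  have o : q.den = 1 := by
    by_contra c
    have := Nat.pow_le_pow_left (show 2 ≤ q.den by have := q.den_nz; omega) 3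
    omega
  rw [o, Nat.cast_one, one_pow, one_mul] at e
  refine ⟨q.num.natAbs, ?_⟩
  simpa [Int.natAbs_mul, Int.natAbs_pow] using (congrArg Int.natAbs e).symm

variable {n : ℕ} (h : ¬ ∃ m : ℕ, n = m ^ 3 ∨ n = 2 * m ^ 3)
include h

theorem sum_ne {a : ℕ} (ha : a = 1 ∨ a = 2) {x z : ℚ} (hz : z ≠ 0) : a * x ^ 3 ≠ n * z ^ 3 := by
  intro e
  obtain ⟨m, k⟩ := sum_cube (n := n) ha (q := x / z) (by field_simp; linear_combination e)
  exact h ⟨m, ha.imp (fun l => by rw [k, l, one_mul]) fun l => by rw [k, l]⟩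

theorem sum_step {r z : ℚ} (hz : z ≠ 0) (e : r ^ 3 + 1 = n * z ^ 3) :
    ∃ r' z' : ℚ, z' ≠ 0 ∧ r' ^ 3 + 1 = n * z' ^ 3 ∧
      |r.num ^ 3 + r.den ^ 3| < |r'.num ^ 3 + r'.den ^ 3| := by
  have c := sum_cop r
  have p : (0 : ℤ) < r.den := Int.natCast_pos.2 r.den_pos
  have e1 : (r.num : ℚ) ^ 3 + (r.den : ℤ) ^ 3 = n * (z * (r.den : ℤ)) ^ 3 := by
    rw [mul_pow, ← mul_assoc, ← e, ← Rat.mul_den_eq_num, Int.cast_natCast]
    ring
  generalize r.num = X at *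
  generalize (r.den : ℤ) = Y at *
  have z1 : z * Y ≠ 0 := mul_ne_zero hz (Int.cast_ne_zero.2 p.ne')
  generalize z * Y = t at *
  have n1 := fun x => sum_ne h (.inl rfl) (x := x) z1
  have N : X ^ 3 + Y ^ 3 ≠ 0 := fun k => n1 0 (by rw [← e1]; exact_mod_cast k.symm)
  have D : 4 ≤ |X ^ 3 - Y ^ 3| := by
    rcases lt_trichotomy X Y with k | rfl | k
    · refine le_abs.2 (.inr ?_)
      by_cases y : Y = 1
      · subst y
        have : X ≠ 0 := fun k => n1 1 (by rw [← e1, k]; simp)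
        have : X ≠ -1 := fun k => N (by rw [k]; simp)
        have := (Odd.pow_le_pow (show Odd 3 by decide)).2 (show X ≤ -2 by omega)
        omega
      · have := (Odd.pow_le_pow (show Odd 3 by decide)).2 (show X ≤ Y - 1 by omega)
        have : 2 ≤ Y := by omega
        nlinarith
    · exact absurd (by rw [← e1]; push_cast; ring) (sum_ne h (.inr rfl) (x := X) z1)
    · have := (Odd.pow_le_pow (show Odd 3 by decide)).2 (show Y + 1 ≤ X by omega)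
      exact le_abs.2 (.inl (by nlinarith))
  have D0 : ((X ^ 3 - Y ^ 3 : ℤ) : ℚ) ≠ 0 := Int.cast_ne_zero.2 fun k => by simp [k] at D
  have i : (X * (X ^ 3 + 2 * Y ^ 3)) ^ 3 + (-(Y * (2 * X ^ 3 + Y ^ 3))) ^ 3 =
      (X ^ 3 + Y ^ 3) * (X ^ 3 - Y ^ 3) ^ 3 := by ring
  have b1 : (3 * X ^ 3 + 2 * Y ^ 3) * (X * (X ^ 3 + 2 * Y ^ 3)) +
      4 * X * Y ^ 2 * -(Y * (2 * X ^ 3 + Y ^ 3)) = X ^ 7 * 3 := by ring
  have b2 : -(4 * X ^ 2 * Y) * (X * (X ^ 3 + 2 * Y ^ 3)) +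
      -(3 * Y ^ 3 + 2 * X ^ 3) * -(Y * (2 * X ^ 3 + Y ^ 3)) = Y ^ 7 * 3 := by ring
  generalize X * (X ^ 3 + 2 * Y ^ 3) = A at *
  generalize -(Y * (2 * X ^ 3 + Y ^ 3)) = B at *
  have i' : (A : ℚ) ^ 3 + B ^ 3 = n * (t * (X ^ 3 - Y ^ 3 : ℤ)) ^ 3 := by
    rw [mul_pow, ← mul_assoc, ← e1]
    exact_mod_cast i
  have hB : B ≠ 0 := fun k => sum_ne h (.inl rfl) (x := A) (mul_ne_zero z1 D0) (by
    rw [← i', k]; simp)
  have hB' : (B : ℚ) ≠ 0 := Int.cast_ne_zero.2 hB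
  refine ⟨A / B, t * (X ^ 3 - Y ^ 3 : ℤ) / B, div_ne_zero (mul_ne_zero z1 D0) hB', ?_, ?_⟩
  · rw [div_pow, div_pow, ← mul_div_assoc, ← i']
    field_simp
  obtain ⟨g, g1, g2⟩ := Rat.exists_eq_mul_div_num_and_eq_mul_div_den A hB
  generalize ((A : ℚ) / B).num = U at *
  generalize (((A : ℚ) / B).den : ℤ) = V at *
  subst g1 g2
  obtain ⟨u, v, w⟩ := c.pow (m := 7) (n := 7)
  have g3 : |g| ≤ 3 := Int.le_of_dvd three_pos ((abs_dvd _ _).2
    ⟨u * ((3 * X ^ 3 + 2 * Y ^ 3) * U + 4 * X * Y ^ 2 * V) +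
      v * (-(4 * X ^ 2 * Y) * U - (3 * Y ^ 3 + 2 * X ^ 3) * V), by
        linear_combination -3 * w - u * b1 - v * b2⟩)
  have j : |g| ^ 3 * |U ^ 3 + V ^ 3| = |X ^ 3 + Y ^ 3| * |X ^ 3 - Y ^ 3| ^ 3 := by
    rw [← abs_pow, ← abs_pow, ← abs_mul, ← abs_mul, ← i]
    congr 1
    ring
  have := pow_le_pow_left₀ (abs_nonneg g) g3 3
  have := pow_le_pow_left₀ (by norm_num) D 3
  have := abs_pos.2 N
  have := abs_nonneg (U ^ 3 + V ^ 3)
  nlinarith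

omit h in
theorem not_sum {n : ℕ} (h : ¬ ∃ m : ℕ, n = m ^ 3 ∨ n = 2 * m ^ 3)
    (hfin : Finite (CK.En n).toAffine.Point) : ¬ ∃ x y : ℚ, x ^ 3 + y ^ 3 = n := by
  rintro ⟨x, y, e⟩
  have n0 : (n : ℚ) ≠ 0 := Nat.cast_ne_zero.2 fun k => h ⟨0, .inl k⟩
  have y0 : y ≠ 0 := fun k => sum_ne h (.inl rfl) (x := x) one_ne_zero (by rw [← e, k]; simp)
  have fin : {r : ℚ | ∃ z : ℚ, z ≠ 0 ∧ r ^ 3 + 1 = n * z ^ 3}.Finite := by
    refine (Set.finite_range fun P : (CK.En n).toAffine.Point => match P with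
      | .zero => (0 : ℚ)
      | .some _ v _ => (36 * n + v) / (36 * n - v)).subset ?_
    rintro r ⟨z, hz, k⟩
    have r1 : r + 1 ≠ 0 := fun l => mul_ne_zero n0 (pow_ne_zero 3 hz) (by
      rw [← k, eq_neg_of_add_eq_zero_left l]; norm_num)
    refine ⟨.some (12 * n * z / (r + 1)) (36 * n * (r - 1) / (r + 1))
      ((WeierstrassCurve.Affine.nonsingular_iff _ _).2
        ⟨(WeierstrassCurve.Affine.equation_iff _ _).2 ?_, .inl ?_⟩), ?_⟩
    · simp only [CK.En]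
      push_cast
      field_simp
      linear_combination 1728 * n * k
    · exact Ne.symm (by simp [CK.En, n0, hz, r1])
    · have : 36 * n - 36 * n * (r - 1) / (r + 1) = 72 * n / (r + 1) := by
        field_simp
        ring
      simp only [this]
      field_simp
      ring
  obtain ⟨r, ⟨z, hz, k⟩, mx⟩ := Set.exists_max_image _ (fun r : ℚ => |r.num ^ 3 + r.den ^ 3|) fin
    ⟨x / y, 1 / y, one_div_ne_zero y0, by rw [← e]; field_simp⟩
  obtain ⟨r', z', a, b, c⟩ := sum_step h hz k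
  exact (mx r' ⟨z', a, b⟩).not_gt c

end Pool.Agent.Lib.MP_696deb_nt.CT
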