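import Pool.Agent.Lib.MP_696deb_nt.CP.Par
import Pool.Agent.Lib.MP_696deb_nt.CK.Lk
import Pool.Agent.Lib.MP_696deb_nt.CL.Fe
import Pool.Agent.Lib.MP_696deb_nt.CT.Sum
import Pool.Agent.Lib.MP_696deb_nt.CT.Half

/-! The distribution of the Selmer corank in the family of cubic twists. -/

set_option autoImplicit false

open scoped Classical
open Filter Topology Module

namespace Pool.Agent.Lib.MP_696deb_nt.CT

open CK CL

theorem exists_gro {n : ℕ} (hn : n ≠ 0) : ∃ s : ℕ, (Even s ↔ Wp n) ∧ ∀ e, CU.Gro n e ↔ s ≤ e := by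
  obtain ⟨a, m, h1, h2, rfl, h3⟩ := CU.CP.exists_cf hn
  obtain ⟨s, h4, h5⟩ := CU.CP.exists_gro_cf h1
  refine ⟨s, h4.trans h3.symm, fun e => Iff.trans ?_ (h5 e)⟩
  simp only [CU.Gro, zs_cube h1.1 h2]

/-- The property of the twist by `n` that is counted. -/
def Good (r n : ℕ) : Prop :=
  (r = 0 ↔ Wp n) ∧ (r = 0 → ¬ ∃ x y : ℚ, x ^ 3 + y ^ 3 = n) ∧
  ∀ a b : ℤ, a = 0 → b = -432 * (n : ℤ) ^ 2 → ∀ W : WeierstrassCurve ℚ,
    W = { a₁ := 0, a₂ := 0, a₃ := 0, a₄ := (a : ℚ), a₆ := (b : ℚ) } →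
    ∃ F : ℂ → ℂ, Differentiable ℂ F ∧
      (∀ s : ℂ, (3 : ℝ) / 2 < s.re →
        HasProd
          (fun p : ℕ =>
            if p.Prime ∧ ¬ ((p : ℤ) ∣ 2 * (-4 * a ^ 3 - 27 * b ^ 2)) then
              (1 - ((p : ℂ) - (Nat.card {q : ZMod p × ZMod p //
                  q.2 ^ 2 = q.1 ^ 3 + (a : ZMod p) * q.1 + (b : ZMod p)} : ℂ))
                  * (p : ℂ) ^ (-s) + (p : ℂ) ^ (1 - 2 * s))⁻¹
            else 1)
          (F s)) ∧
      IsLeast {k : ℕ | CorankLE3 W k} r ∧ Module.Finite ℤ W.toAffine.Point ∧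
      finrank ℤ W.toAffine.Point ≤ r ∧ (r : ℕ∞) ≤ analyticOrderAt F 1

theorem good {n : ℕ} (hn : n ≠ 0) (h : CU.Gro n 3) (hc : ¬ ∃ m : ℕ, n = m ^ 3 ∨ n = 2 * m ^ 3) :
    Good (if Wp n then 0 else 1) n := by
  obtain ⟨F, h1, h2, h3⟩ := fe hn
  obtain ⟨s, h4, h5⟩ := exists_gro hn
  have k0 := (h5 _).1 h
  have k1 := fg_of_gro hn h
  have k2 := rank_of_gro hn ((h5 s).2 le_rfl)
  rw [Nat.even_iff] at h4
  by_cases hw : Wp n
  · have k3 := h4.2 hw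
    have k4 : finrank ℤ (En n).toAffine.Point = 0 := by omega
    rw [if_pos hw]
    refine ⟨iff_of_true rfl hw, fun _ => not_sum hc ?_, ?_⟩
    · exact Module.finite_of_fg_torsion _ fun x => by
        obtain ⟨a, ha, e⟩ := (Module.finrank_eq_zero_iff (R := ℤ)).1 k4 x
        exact ⟨⟨a, mem_nonZeroDivisors_of_ne_zero ha⟩, e⟩
    rintro _ _ rfl rfl _ rfl
    exact ⟨F, h1, h2, ⟨corank_of_gro hn ((h5 _).2 (by omega)), fun _ _ => Nat.zero_le _⟩, k1,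
      k4.le, by simp⟩
  · rw [if_neg hw]
    refine ⟨iff_of_false one_ne_zero hw, fun e => absurd e one_ne_zero, ?_⟩
    rintro _ _ rfl rfl _ rfl
    refine ⟨F, h1, h2, ⟨corank_of_gro hn h, fun k hk => Nat.pos_of_ne_zero fun e => hw ?_⟩, k1,
      (by omega : finrank ℤ (En n).toAffine.Point ≤ 1), ?_⟩
    · subst e
      have := (h5 _).1 (gro_of_corank hn hk)
      exact h4.1 (by omega)
    · exact Order.one_le_iff_ne_zero.2 ((h1.analyticAt 1).analyticOrderAt_ne_zero.2 (h3 hw))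

theorem tend_of (core : CU.CoreStmt) {r : ℕ} (hr : r ≤ 1) :
    Tendsto (fun X : ℕ => (Set.ncard {n : ℕ | 1 ≤ n ∧ n ≤ X ∧ Good r n} : ℝ) / X)
      atTop (𝓝 (1 / 2)) := by
  refine half (fun _ _ h => h.1) (fun ε hε => ?_) hr
  obtain ⟨X0, h0⟩ := core (ε / 2) (half_pos hε)
  obtain ⟨X1, h1⟩ := cubes (half_pos hε)
  refine ⟨max X0 X1, fun X hX => ?_⟩
  have k1 : {n : ℕ | 1 ≤ n ∧ n ≤ X ∧ ¬ Good (if Wp n then 0 else 1) n} ⊆
      {n : ℕ | 1 ≤ n ∧ n ≤ X ∧ ¬ CU.Gro n 3} ∪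
        {n : ℕ | 1 ≤ n ∧ n ≤ X ∧ ∃ m : ℕ, n = m ^ 3 ∨ n = 2 * m ^ 3} := fun n hn => by
    by_contra k
    simp only [Set.mem_union, not_or] at k
    exact hn.2.2 (good (by have := hn.1; omega) (not_not.1 fun e => k.1 ⟨hn.1, hn.2.1, e⟩)
      fun e => k.2 ⟨hn.1, hn.2.1, e⟩)
  have k2 := (Set.ncard_le_ncard k1 (((Set.finite_Iic X).subset fun _ h => h.2.1).union
    ((Set.finite_Iic X).subset fun _ h => h.2.1))).trans (Set.ncard_union_le _ _)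
  have k3 := Nat.cast_le (α := ℝ).2 k2
  have k4 := h0 X (le_of_max_le_left hX)
  have k5 := h1 X (le_of_max_le_right hX)
  push_cast at k3
  linarith

end Pool.Agent.Lib.MP_696deb_nt.CT
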